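import Pool.Agent.K4H45.BL.End
import Pool.Agent.K4H45.BL.Fin

set_option autoImplicit false
set_option maxHeartbeats 1000000

/-!
# MP_ac5134: all translates, tested against Brascamp-Lieb products

Work in `ℝ^n = ℝ^d × ℝ`, `n = d + 1 ≥ 2`, with its Euclidean norm (`Space d`), and let `P` be the
paraboloid `{(ω, |ω|²)}`, `|ω| ≤ 1`.  The box dual to the cap at `ω` is `box N (nor ω) f 0`: its long
side `N²` is in the direction of the unit normal `nor ω = (-2ω, 1)/√(1+4|ω|²)` and its other sides `N`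
are in the directions of an arbitrary orthonormal frame `f` of the orthogonal complement.

The translates are ARBITRARY.  By duality the conjecture says that for all functions `g ≥ 0`
`∫ (∑ T_θ) g ≤ C_ε N^ε ‖∑ T_{θ,0}‖_p ‖g‖_{p'}`.  Let `B_j` be orthogonal projections of `ℝ^n` onto
subspaces of dimension `k_j` in any position and `c_j > 0` exponents for which the Brascamp-Lieb
inequality `∫ ∏ φ_j(B_j x)^{c_j} dx ≤ L ∏ (∫ φ_j)^{c_j}` holds; it gives
`‖∏ u_j ∘ B_j‖_{p'} ≤ L^{1/p'} ∏ ‖u_j‖_{p'/c_j}`.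

1. *Test functions.*  For every `p' ∈ [1, ∞)`
   `∫ (∑ T_θ) ∏ u_j(B_j x) dx ≤ C (1 + log N) ‖∑ T_{θ,0}‖_p L^{1/p'} ∏ ‖u_j‖_{p'/c_j}`
   if each `u_j ≥ 0` is an arbitrary measurable function of `k_j ≤ 2` variables or a radial function
   (about any point) of any number of variables.  `C` depends only on `n` and on the constants of the
   caps.
2. *The inequality of Q1* for all `p ∈ [1, ∞]`, with the constant
   `C ((1 + log N)^(2n-1) K^(n-1) L M)^(1/n)`, for all translates such that every set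
   `{∑ T_θ > t}` is covered by `K` sets `{x : B_j x ∈ E_j for all j}` for which the Brascamp-Lieb bounds
   `∏ |E_j|^{c_j}` of the volumes add up to at most `M |{∑ T_θ > t}|`; the `E_j` are arbitrary
   measurable sets in dimension `k_j ≤ 2` and radial ones in the other dimensions, and the data depend
   on `t` and on the set.
3. *Coordinate projections.*  In any orthonormal coordinates of `ℝ^n` the projections onto the
   coordinates in `S_j` and the exponents `c_j` satisfy the condition with `L = 1` if every coordinate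
   `i` has `∑_{j : i ∈ S_j} c_j = 1` (Finner).  For instance `g = ∏ u_j(x_j)` with `x_j` in orthogonal
   lines and planes (`c_j = 1`), `g = ∏_{i<j} u_{ij}(x_i, x_j)` (`c_{ij} = 1/(n-1)`), and
   `g(x) = ∏ v_j(|x - o_j|)`, `j ≤ m`, radial about `m` different points (`c_j = 1/m`).
-/

open MeasureTheory Set ENNReal

namespace Pool.Agent.Results.MP_ac5134_an.BrascampLiebProducts

open Pool.Agent.H810R3.Tub

/-- The caps have centres `ω i` in the closed unit ball, `σ/N`-separated and at least `κ N^d` in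
number, and `f i` is an orthonormal frame of the orthogonal complement of the normal at `ω i`. -/
def Caps {d : ℕ} {ι : Type} [Fintype ι] (σ κ N : ℝ) (ω : ι → Vec d) (f : ι → Fin d → Space d) : Prop :=
  (∀ i, ‖ω i‖ ≤ 1) ∧ (∀ i j, i ≠ j → σ / N ≤ ‖ω i - ω j‖) ∧ κ * N ^ d ≤ (Fintype.card ι : ℝ) ∧
    ∀ i, Orthonormal ℝ (Fin.cons (nor (ω i)) (f i) : Fin (d + 1) → Space d)

/-- The sum of the indicators of the boxes of the caps with centres `a i`. -/
noncomputable def boxSum {d : ℕ} {ι : Type} [Fintype ι] (N : ℝ) (ω : ι → Vec d)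
    (f : ι → Fin d → Space d) (a : ι → Space d) (y : Space d) : ℝ :=
  ∑ i, (box N (nor (ω i)) (f i) (a i)).indicator (fun _ => (1 : ℝ)) y

/-- The inequality of Q1 with constant `C`, for all exponents, for the boxes with centres `a i`. -/
def Ineq {d : ℕ} {ι : Type} [Fintype ι] (C N : ℝ) (ω : ι → Vec d) (f : ι → Fin d → Space d)
    (a : ι → Space d) : Prop :=
  ∀ p : ℝ≥0∞, 1 ≤ p → eLpNorm (boxSum N ω f a) p volume ≤
    ENNReal.ofReal C * eLpNorm (boxSum N ω f 0) p volume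

/-- The orthogonal projection of `x` onto the span of the orthonormal vectors `b l`, in the
coordinates given by these vectors. -/
noncomputable def proj {d k : ℕ} (b : Fin k → Space d) (x : Space d) : EuclideanSpace ℝ (Fin k) :=
  WithLp.toLp 2 (fun l => inner ℝ (b l) x)

/-- The projections onto the spans of the orthonormal families `b j` of `k j` vectors, with the
exponents `c j`, satisfy the Brascamp-Lieb inequality with the constant `L`. -/
structure Datum {d : ℕ} {J : Type} [Fintype J] (L : ℝ) (k : J → ℕ) (b : ∀ j, Fin (k j) → Space d)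
    (c : J → ℝ) : Prop where
  rank : ∀ j, 1 ≤ k j
  orthonormal : ∀ j, Orthonormal ℝ (b j)
  exponent : ∀ j, 0 < c j
  scaling : ∑ j, c j * k j = (d : ℝ) + 1
  inequality : ∀ φ : ∀ j, EuclideanSpace ℝ (Fin (k j)) → ℝ≥0∞, (∀ j, Measurable (φ j)) →
    ∫⁻ x : Space d, ∏ j, φ j (proj (b j) x) ^ c j ≤ ENNReal.ofReal L * ∏ j, (∫⁻ y, φ j y) ^ c j

/-- The measurable functions of at most two variables, and the radial functions about any point. -/
def Admissible {k : ℕ} (u : EuclideanSpace ℝ (Fin k) → ℝ≥0∞) : Prop :=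
  Measurable u ∧ (k ≤ 2 ∨ ∃ (o : EuclideanSpace ℝ (Fin k)) (v : ℝ → ℝ≥0∞), Measurable v ∧
    ∀ x, u x = v ‖x - o‖)

/-- The measurable sets in dimension at most two, and the radial sets about any point. -/
def AdmissibleSet {k : ℕ} (E : Set (EuclideanSpace ℝ (Fin k))) : Prop :=
  MeasurableSet E ∧ (k ≤ 2 ∨ ∃ (o : EuclideanSpace ℝ (Fin k)) (T : Set ℝ), MeasurableSet T ∧
    E = {x | ‖x - o‖ ∈ T})

/-- `S = {y | B_j y ∈ E_j for all j}` with admissible `E_j`, and the Brascamp-Lieb bound of its volume,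
without the constant, is at most `m`. -/
def ProductSet {d : ℕ} (L : ℝ) (m : ℝ≥0∞) (S : Set (Space d)) : Prop :=
  ∃ (J : Type) (_ : Fintype J) (k : J → ℕ) (b : ∀ j, Fin (k j) → Space d) (c : J → ℝ)
    (E : ∀ j, Set (EuclideanSpace ℝ (Fin (k j)))), Datum L k b c ∧ (∀ j, AdmissibleSet (E j)) ∧
      S = {y | ∀ j, proj (b j) y ∈ E j} ∧ ∏ j, volume (E j) ^ c j ≤ m

/-- `A` is covered by `K` product sets whose bounds add up to at most `m`. -/
def Cover {d : ℕ} (K : ℕ) (L : ℝ) (m : ℝ≥0∞) (A : Set (Space d)) : Prop :=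
  ∃ (S : Fin K → Set (Space d)) (v : Fin K → ℝ≥0∞), (∀ l, ProductSet L (v l) (S l)) ∧
    A ⊆ ⋃ l, S l ∧ ∑ l, v l ≤ m

/-- The inequality, with the constant `C (1 + log N) L^(1/r)`, against all Brascamp-Lieb products of
admissible functions, for all the exponents `r = p'` in `[1, ∞)`. -/
def TestIneq {d : ℕ} {ι : Type} [Fintype ι] (C N : ℝ) (ω : ι → Vec d) (f : ι → Fin d → Space d)
    (a : ι → Space d) : Prop :=
  ∀ (J : Type) [Fintype J] (L : ℝ) (k : J → ℕ) (b : ∀ j, Fin (k j) → Space d) (c : J → ℝ), 0 < L →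
    Datum L k b c → ∀ u : ∀ j, EuclideanSpace ℝ (Fin (k j)) → ℝ≥0∞, (∀ j, Admissible (u j)) →
    ∀ (p : ℝ≥0∞) (r : ℝ), 1 ≤ r → p⁻¹ + (ENNReal.ofReal r)⁻¹ = 1 →
      ∫⁻ y, ENNReal.ofReal (boxSum N ω f a y) * ∏ j, u j (proj (b j) y) ≤
        ENNReal.ofReal (C * (1 + Real.log N) * L ^ (1 / r)) * eLpNorm (boxSum N ω f 0) p volume *
          ∏ j, (∫⁻ y, u j y ^ (r / c j)) ^ (c j / r)

theorem isDatum_of {d : ℕ} {J : Type} [Fintype J] {L : ℝ} {k : J → ℕ} {b : ∀ j, Fin (k j) → Space d}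
    {c : J → ℝ} (h : Datum L k b c) : Pool.Agent.K4H45.BL.IsDatum L k b c :=
  ⟨h.rank, h.orthonormal, h.exponent, h.scaling, h.inequality⟩

theorem cov_of {d : ℕ} {K : ℕ} {L : ℝ} {m : ℝ≥0∞} {A : Set (Space d)} (h : Cover K L m A) :
    Pool.Agent.K4H45.BL.Cov K L m A := by
  obtain ⟨S, v, hS, hA, hv⟩ := h
  refine ⟨S, v, fun l => ?_, hA, hv⟩
  obtain ⟨J, hJ, k, b, c, E, hD, hE, hSE, hm⟩ := hS l
  exact ⟨J, hJ, k, b, c, E, isDatum_of hD, fun j => (hE j).1, fun j => (hE j).2, hSE, hm⟩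

theorem ofReal_boxSum {d : ℕ} {ι : Type} [Fintype ι] (N : ℝ) (ω : ι → Vec d)
    (f : ι → Fin d → Space d) (a : ι → Space d) (y : Space d) :
    ENNReal.ofReal (boxSum N ω f a y) = Fb N ω f a y := by
  have h0 : 0 ≤ boxSum N ω f a y :=
    Finset.sum_nonneg fun i _ => indicator_nonneg (fun _ _ => zero_le_one) _
  rw [← Real.enorm_of_nonneg h0]
  exact enorm_sum_box N ω f a y

/-- **The Kakeya inequality in tube form for all translates, against Brascamp-Lieb products, and for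
level sets covered by product sets.** -/
theorem result (d : ℕ) (hd : 1 ≤ d) :
    (∀ σ κ : ℝ, 0 < σ → σ ≤ 1 → 0 < κ → ∃ C : ℝ, 0 < C ∧ ∀ N : ℝ, 1 ≤ N →
      ∀ (ι : Type) [Fintype ι] (ω : ι → Vec d) (f : ι → Fin d → Space d), Caps σ κ N ω f →
      ∀ a : ι → Space d, TestIneq C N ω f a ∧
        ∀ (K : ℕ) (L M : ℝ), 1 ≤ K → 1 ≤ L → 1 ≤ M →
          (∀ t : ℕ, Cover K L (ENNReal.ofReal M * volume {y | (t : ℝ) < boxSum N ω f a y})
            {y | (t : ℝ) < boxSum N ω f a y}) →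
          Ineq (C * ((1 + Real.log N) ^ (2 * d + 1) * ((K : ℝ) ^ d * (L * M))) ^ (1 / ((d : ℝ) + 1)))
            N ω f a) ∧
    (∀ (e : OrthonormalBasis (Fin (d + 1)) ℝ (Space d)) (J : Type) [Fintype J] (k : J → ℕ)
      (τ : ∀ j, Fin (k j) → Fin (d + 1)) (c : J → ℝ), (∀ j, 1 ≤ k j) →
      (∀ j, Function.Injective (τ j)) → (∀ j, 0 < c j) →
      (∀ i, ∑ j, (range (τ j)).indicator (fun _ => c j) i = 1) →
        Datum 1 k (fun j l => e (τ j l)) c) := by
  have hd0 : (0 : ℝ) < d := by exact_mod_cast hd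
  constructor
  swap
  · intro e J _ k τ c hk hτ hc hcs
    refine ⟨hk, fun j => ?_, hc, ?_, Pool.Agent.K4H45.BL.finner e hτ hc hcs⟩
    · exact e.orthonormal.comp (τ j) (hτ j)
    · have := Pool.Agent.K4H45.BL.finner_scaling hτ hcs
      rw [this]
      push_cast
      ring
  intro σ κ hσ hσ1 hκ
  obtain ⟨E, hE, hmom⟩ := Pool.Agent.K4H45.BL.moment_bound hd hσ hσ1
  have hw0 : 0 < wv d := wv_pos d
  set q : ℝ := ((d : ℝ) + 1) / d with hq
  have hq1 : 1 < q := by
    rw [hq, lt_div_iff₀ hd0]; linarith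
  have hq1' : q - 1 = 1 / d := by
    rw [hq]; field_simp; ring
  set b : ℝ := (1 + (d : ℝ)) ^ (d + 1) * wv d with hb
  have hb0 : 0 < b := by positivity
  set Y : ℝ := 1 + E * b ^ (1 / (d : ℝ)) + E * 2 ^ (d + 1) / wv d with hY
  have hY0 : 1 ≤ Y := by
    have h1 : 0 ≤ E * b ^ (1 / (d : ℝ)) := by positivity
    have h2 : 0 ≤ E * 2 ^ (d + 1) / wv d := by positivity
    linarith
  have hc2 := Pool.Agent.K4H45.BL.c2_props d hσ hκ
  set C : ℝ := 1 + Y / κ + Pool.Agent.K4H45.BL.c2 d σ κ with hC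
  have hYκ : 0 ≤ Y / κ := by positivity
  have hC1 : 1 ≤ C := by linarith [hc2.1]
  have hCc2 : Pool.Agent.K4H45.BL.c2 d σ κ ≤ C := by linarith
  have hCκ : Y ≤ C * κ := by
    have h1 : Y / κ ≤ C := by linarith [hc2.1]
    rwa [div_le_iff₀ hκ] at h1
  have hCq : Y ≤ (C * κ) ^ q := by
    calc Y = Y ^ (1 : ℝ) := (Real.rpow_one _).symm
      _ ≤ Y ^ q := Real.rpow_le_rpow_of_exponent_le hY0 hq1.le
      _ ≤ (C * κ) ^ q := Real.rpow_le_rpow (by linarith) hCκ (by linarith)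
  refine ⟨C, by linarith, ?_⟩
  intro N hN ι _ ω f ⟨hω, hsep, hcard, hf⟩ a
  have hN0 : 0 < N := by linarith
  have hlN : 0 ≤ Real.log N := Real.log_nonneg hN
  have hc0 : (0 : ℝ) < (Fintype.card ι : ℝ) := lt_of_lt_of_le (by positivity) hcard
  have hne : Nonempty ι := by
    rw [← Fintype.card_pos_iff]
    exact_mod_cast hc0
  constructor
  · intro J _ L k bb c hL hD u hu p r hr hpr
    have h := Pool.Agent.K4H45.BL.all hd hD.rank hD.orthonormal hD.exponent hD.scaling hL hD.inequality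
      hN hσ hσ1 hκ hω hsep hcard hf a (u := u) (fun j => (hu j).1) (fun j => (hu j).2) hr hpr
    simp_rw [ofReal_boxSum]
    refine h.trans ?_
    refine mul_le_mul_left (mul_le_mul_left (ENNReal.ofReal_le_ofReal ?_) _) _
    gcongr
  intro K L M hK hL hM hcov p hp
  have hK1 : (1 : ℝ) ≤ K := by exact_mod_cast hK
  set X : ℝ := (1 + Real.log N) ^ (2 * d + 1) * ((K : ℝ) ^ d * (L * M)) with hX
  have hX1 : 1 ≤ X := by
    have h1 : 1 ≤ (1 + Real.log N) ^ (2 * d + 1) := one_le_pow₀ (by linarith)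
    have h2 : 1 ≤ (K : ℝ) ^ d := one_le_pow₀ hK1
    calc (1 : ℝ) = 1 * (1 * (1 * 1)) := by norm_num
      _ ≤ X := by rw [hX]; gcongr
  have hX0 : 0 < X := by linarith
  have hQi : ∫⁻ y, Fb N ω f a y ^ q ≤ ENNReal.ofReal (E * N ^ (2 * (d + 1)) * X ^ (1 / (d : ℝ))) := by
    refine hmom N hN ι ω f hω hsep hf a K L M hK (by linarith) (by linarith) fun t => ?_
    have hset : {y | (t : ℝ≥0∞) < Fb N ω f a y} = {y | (t : ℝ) < boxSum N ω f a y} := by
      ext y
      rw [Set.mem_ofPred_eq, Set.mem_ofPred_eq, ← ofReal_boxSum, ← ENNReal.ofReal_natCast,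
        ENNReal.ofReal_lt_ofReal_iff_of_nonneg (Nat.cast_nonneg t)]
    rw [hset]
    exact cov_of (hcov t)
  set D : ℝ := C * X ^ (1 / ((d : ℝ) + 1)) with hD
  have hD1 : 1 ≤ D := by
    have h1 : 1 ≤ X ^ (1 / ((d : ℝ) + 1)) := Real.one_le_rpow hX1 (by positivity)
    calc (1 : ℝ) = 1 * 1 := by norm_num
      _ ≤ D := by rw [hD]; gcongr
  have hC0 : 0 < C := by linarith
  have hDq : D ^ q = C ^ q * X ^ (1 / (d : ℝ)) := by
    rw [hD, Real.mul_rpow hC0.le (by positivity), ← Real.rpow_mul hX0.le]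
    congr 2
    rw [hq]; field_simp
  have hCq' : (C * κ) ^ q = C ^ q * κ ^ q := Real.mul_rpow hC0.le hκ.le
  have hXd : 0 < X ^ (1 / (d : ℝ)) := by positivity
  refine compare d hN hq1 (Q := E * N ^ (2 * (d + 1)) * X ^ (1 / (d : ℝ))) (by positivity) hD1 ω f hf a
    hQi ?_ ?_ p hp
  · -- first condition
    have hNN : N ^ (2 * (d + 1)) * (N ^ (2 * (d + 1))) ^ (1 / (d : ℝ)) = (N ^ (2 * (d + 1))) ^ q := by
      have h0 : 0 < N ^ (2 * (d + 1)) := by positivity
      have h1 : q = 1 + 1 / (d : ℝ) := by rw [← hq1']; ring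
      rw [h1, Real.rpow_add h0, Real.rpow_one]
    have h1 : E * b ^ (1 / (d : ℝ)) ≤ C ^ q * κ ^ q := by
      rw [← hCq']
      refine le_trans ?_ hCq
      have h2 : 0 ≤ E * 2 ^ (d + 1) / wv d := by positivity
      linarith
    calc E * N ^ (2 * (d + 1)) * X ^ (1 / (d : ℝ)) * (b * N ^ (2 * (d + 1))) ^ (q - 1)
        = (E * b ^ (1 / (d : ℝ))) * X ^ (1 / (d : ℝ)) *
          (N ^ (2 * (d + 1)) * (N ^ (2 * (d + 1))) ^ (1 / (d : ℝ))) := by
          rw [hq1', Real.mul_rpow hb0.le (by positivity)]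
          ring
      _ ≤ (C ^ q * κ ^ q) * X ^ (1 / (d : ℝ)) * (N ^ (2 * (d + 1))) ^ q := by
          rw [hNN]
          gcongr
      _ = D ^ q * ((κ * N ^ d) * N ^ (d + 2)) ^ q := by
          have h2 : (κ * N ^ d) * N ^ (d + 2) = κ * N ^ (2 * (d + 1)) := by ring
          rw [h2, hDq, Real.mul_rpow hκ.le (by positivity)]
          ring
      _ ≤ D ^ q * ((Fintype.card ι : ℝ) * N ^ (d + 2)) ^ q := by
          gcongr
  · -- second condition
    have h1 : E * 2 ^ (d + 1) / wv d ≤ C ^ q * κ ^ q := by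
      rw [← hCq']
      refine le_trans ?_ hCq
      have h2 : 0 ≤ E * b ^ (1 / (d : ℝ)) := by positivity
      linarith
    have h2 : E ≤ (C ^ q * κ ^ q) * (wv d / 2 ^ (d + 1)) := by
      rw [div_le_iff₀ hw0] at h1
      rw [mul_div_assoc', le_div_iff₀ (by positivity)]
      exact h1
    have hNd : (N ^ d) ^ q = N ^ (d + 1) := by
      rw [← Real.rpow_natCast, ← Real.rpow_mul hN0.le, ← Real.rpow_natCast N (d + 1)]
      congr 1
      rw [hq]; push_cast; field_simp
    calc E * N ^ (2 * (d + 1)) * X ^ (1 / (d : ℝ))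
        ≤ ((C ^ q * κ ^ q) * (wv d / 2 ^ (d + 1))) * N ^ (2 * (d + 1)) * X ^ (1 / (d : ℝ)) := by
          gcongr
      _ = D ^ q * ((κ * N ^ d) ^ q * ((N / 2) ^ (d + 1) * wv d)) := by
          rw [hDq, Real.mul_rpow hκ.le (by positivity), hNd, div_pow]
          ring
      _ ≤ D ^ q * ((Fintype.card ι : ℝ) ^ q * ((N / 2) ^ (d + 1) * wv d)) := by
          gcongr

end Pool.Agent.Results.MP_ac5134_an.BrascampLiebProducts
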