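import Pool.Agent.K4H43.CL.Rot

set_option autoImplicit false

/-!
# MP_ac5134: the Kakeya inequality in tube form for convex fronts, few apexes per level, and all
rotationally symmetric families

Work in `ℝ^n = ℝ^d × ℝ`, `n = d + 1 ≥ 3`, with its Euclidean norm (`Space d`), and let `P` be the
paraboloid `{(ω, |ω|²)}`, `|ω| ≤ 1`.  The box dual to the cap at `ω` is `box N (nor ω) f 0`: its long
side `N²` is in the direction of the unit normal `nor ω = (-2ω, 1)/√(1+4|ω|²)` and its other sides `N`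
are in the directions of an arbitrary orthonormal frame `f` of the orthogonal complement.  The centres
of the translated boxes are `a i`.

Let `ψ` be a convex function on `ℝ^d` whose subgradients are bounded and bounded away from `0`: `|ω|`,
any norm, the distance from a point, a linear function, ...  The caps with
`k ≤ N ψ(ω) < k + 1` form the level `k`.

1. *Few apexes.*  If for every level `k` there are `m` points such that every box of the level is, up to
   dilation by `K`, on a line through one of them (there is no condition on the points, which may be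
   inside the box or far away, and none between different levels), then the inequality of Q1 holds for
   all `p` in `[1, ∞]` with the constant `C (m^(1/d) (1 + K)^(d+2) (1 + log N)²)^θ`,
   `θ = min ((n-1)(1-1/p)) (1/p)`: the loss is at most `m^(1/n)` up to logarithms, none for `m = 1`.
   Each point may be replaced by a *front*: lines with the same value of `ψ` which leave (or arrive at)
   it so that each of them is the first one in its own direction and they expand.
2. *Convex fronts* (`ψ = |ω|`).  The same holds if the boxes of every level are, up to dilation by `K`, on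
   lines which leave one of `m` arbitrary sets `Ω` (at one height) orthogonally, with the same slope, the
   set being in the half space behind the line, such as the outer normals of a convex hypersurface,
   and the boxes are beyond the set; one-point sets are allowed without the last condition.
3. *Symmetric families.*  The same holds, with `m = 1`, for all families which are symmetric, up to
   errors `K N`, under the rotations about the axis of the paraboloid (`n ≥ 4`), respectively under the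
   rotations and reflections (`n = 3`).
-/

open MeasureTheory Set ENNReal NNReal

namespace Pool.Agent.Results.MP_ac5134_an.ConvexFronts

open Pool.Agent.H810R3.Tub

/-- The caps have centres `ω i` in the closed unit ball, `σ/N`-separated and at least `κ N^d` in
number, and `f i` is an orthonormal frame of the orthogonal complement of the normal at `ω i`. -/
def Caps {d : ℕ} {ι : Type} [Fintype ι] (σ κ N : ℝ) (ω : ι → Vec d) (f : ι → Fin d → Space d) : Prop :=
  (∀ i, ‖ω i‖ ≤ 1) ∧ (∀ i j, i ≠ j → σ / N ≤ ‖ω i - ω j‖) ∧ κ * N ^ d ≤ (Fintype.card ι : ℝ) ∧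
    ∀ i, Orthonormal ℝ (Fin.cons (nor (ω i)) (f i) : Fin (d + 1) → Space d)

/-- The sum of the indicators of the boxes of the caps with centres `a i`. -/
noncomputable def boxSum {d : ℕ} {ι : Type} [Fintype ι] (N : ℝ) (ω : ι → Vec d)
    (f : ι → Fin d → Space d) (a : ι → Space d) (y : Space d) : ℝ :=
  ∑ i, (box N (nor (ω i)) (f i) (a i)).indicator (fun _ => (1 : ℝ)) y

/-- The inequality of Q1 for the boxes with centres `a i`, for all exponents `p`, with the constant
`C Y^θ`, `θ = min ((n-1)(1-1/p)) (1/p)`. -/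
def Ineq {d : ℕ} {ι : Type} [Fintype ι] (C Y N : ℝ) (ω : ι → Vec d) (f : ι → Fin d → Space d)
    (a : ι → Space d) : Prop :=
  ∀ p : ℝ≥0∞, 1 ≤ p → eLpNorm (boxSum N ω f a) p volume ≤
    ENNReal.ofReal (C * Y ^ min ((d : ℝ) * (1 - 1 / p.toReal)) (1 / p.toReal)) *
      eLpNorm (boxSum N ω f 0) p volume

/-- `g v` is a subgradient of `ψ` at `v`, of norm between `c` and `L`, for every `v`; in particular `ψ`
is convex. -/
def Subgradients {d : ℕ} (c L : ℝ) (ψ : Vec d → ℝ) (g : Vec d → Vec d) : Prop :=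
  (∀ v w, ψ v + inner ℝ (g v) (w - v) ≤ ψ w) ∧ ∀ v, c ≤ ‖g v‖ ∧ ‖g v‖ ≤ L

/-- The line through `(x, p)` with the direction `(-2w, 1)`, where `|w - ω| ≤ K/N`, passes the point `a`
at the distance at most `K N`, measured in the horizontal hyperplane of `a`. -/
def Close {d : ℕ} (K N : ℝ) (ω : Vec d) (a : Space d) (p : ℝ) (x w : Vec d) : Prop :=
  ‖w - ω‖ ≤ K / N ∧ ‖x - (2 * (a.snd - p)) • w - a.fst‖ ≤ K * N

/-- The lines `i ∈ J` through the points `(X i, p)` with the directions `(-2 w i, 1)` form a front: either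
the points coincide, or the boxes, whose centres have the heights `s i`, are above `p` (`ε = 1`) or
below `p` (`ε = -1`), `ψ (w i)` is the same for all `i ∈ J`, and the lines leave the front (`ε = 1`) or
arrive at it (`ε = -1`). -/
def IsFront {d : ℕ} {ι : Type} (N : ℝ) (ψ : Vec d → ℝ) (g : Vec d → Vec d) (s : ι → ℝ) (w X : ι → Vec d)
    (p : ℝ) (J : Set ι) : Prop :=
  (∀ i ∈ J, ∀ j ∈ J, X i = X j) ∨
    ∃ ε : ℝ, (ε = 1 ∨ ε = -1) ∧ (∀ i ∈ J, (1 + d) * N ^ 2 / 2 ≤ ε * (s i - p)) ∧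
      ∀ i ∈ J, ∀ j ∈ J, ψ (w i) = ψ (w j) ∧ 0 ≤ ε * inner ℝ (g (w i)) (X j - X i) ∧
        0 ≤ ε * inner ℝ (w i - w j) (X j - X i)

/-- For every level `k`, the set of the caps `ω i` with `k ≤ N ψ (ω i) < k + 1`, there are `m` fronts such
that the box of every cap of the level is close to a line of one of them. -/
def Fronts {d : ℕ} {ι : Type} (K N : ℝ) (m : ℕ) (ψ : Vec d → ℝ) (g : Vec d → Vec d) (ω : ι → Vec d)
    (a : ι → Space d) : Prop :=
  ∃ (r : ι → Fin m) (p : ℤ → Fin m → ℝ) (X w : ι → Vec d),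
    (∀ i, Close K N (ω i) (a i) (p ⌊N * ψ (ω i)⌋ (r i)) (X i) (w i)) ∧
    ∀ (k : ℤ) (q : Fin m), IsFront N ψ g (fun i => (a i).snd) w X (p k q)
      {i | ⌊N * ψ (ω i)⌋ = k ∧ r i = q}

/-- The lines `i ∈ J` through the points `(X i, p)`, `X i ∈ Ω`, with the directions `(-2 w i, 1)` pass
through one point, or they leave the set `Ω` orthogonally (`ε = 1`; for `ε = -1` they arrive at `Ω`
orthogonally), all with the same slope, and the boxes are above `p` (below `p`). -/
def Normal {d : ℕ} {ι : Type} (N : ℝ) (s : ι → ℝ) (w X : ι → Vec d) (p : ℝ) (Ω : Set (Vec d))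
    (J : Set ι) : Prop :=
  (∀ i ∈ J, X i ∈ Ω) ∧ (Ω.Subsingleton ∨
    ∃ ε : ℝ, (ε = 1 ∨ ε = -1) ∧ (∀ i ∈ J, (1 + d) * N ^ 2 / 2 ≤ ε * (s i - p)) ∧
      (∀ i ∈ J, ∀ j ∈ J, w i ≠ 0 ∧ ‖w i‖ = ‖w j‖) ∧ ∀ i ∈ J, ∀ y ∈ Ω, 0 ≤ ε * inner ℝ (w i) (y - X i))

/-- For every level `k`, the set of the caps `ω i` with `k ≤ N |ω i| < k + 1`, there are `m` arbitrary
sets `Ω k q` such that the box of every cap of the level is close to a line through one of the sets, as
in `Normal`. -/
def NormalFronts {d : ℕ} {ι : Type} (K N : ℝ) (m : ℕ) (ω : ι → Vec d) (a : ι → Space d) : Prop :=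
  ∃ (r : ι → Fin m) (p : ℤ → Fin m → ℝ) (Ω : ℤ → Fin m → Set (Vec d)) (X w : ι → Vec d),
    (∀ i, Close K N (ω i) (a i) (p ⌊N * ‖ω i‖⌋ (r i)) (X i) (w i)) ∧
    ∀ (k : ℤ) (q : Fin m), Normal N (fun i => (a i).snd) w X (p k q) (Ω k q)
      {i | ⌊N * ‖ω i‖⌋ = k ∧ r i = q}

/-- The family of the positions `β i` is symmetric, up to `K N`: if the linear isometry `U` of `ℝ^d`
(which for `d ≥ 3` has determinant `1`) maps `ω i` to `ω i'` up to `1/N`, then it maps `β i` to `β i'`
up to `K N`. -/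
def Symmetric {d : ℕ} {ι : Type} (K N : ℝ) (ω β : ι → Vec d) : Prop :=
  ∀ (i i' : ι) (U : Vec d ≃ₗᵢ[ℝ] Vec d),
    (3 ≤ d → LinearMap.det (U.toLinearEquiv : Vec d →ₗ[ℝ] Vec d) = 1) →
    ‖U (ω i) - ω i'‖ ≤ 1 / N → ‖U (β i) - β i'‖ ≤ K * N

/-- The centre, at the height `s`, of the translate of the box at `ω` whose axis passes through
`(β, 0)`. -/
def centre {d : ℕ} (ω β : Vec d) (s : ℝ) : Space d := WithLp.toLp 2 (β + s • (-(2 : ℝ) • ω), s)

theorem general {d : ℕ} (hd : 2 ≤ d) {σ κ c L : ℝ} (hσ : 0 < σ) (hκ : 0 < κ) (hc : 0 < c) (hL : 0 < L) :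
    ∃ C : ℝ, 0 < C ∧ ∀ (ψ : Vec d → ℝ) (g : Vec d → Vec d), Subgradients c L ψ g →
      ∀ (K : ℝ≥0) (m : ℕ) (N : ℝ), 1 ≤ N → ∀ (ι : Type) [Fintype ι] (ω : ι → Vec d)
        (f : ι → Fin d → Space d) (a : ι → Space d), Caps σ κ N ω f → Fronts K N m ψ g ω a →
        Ineq C ((m : ℝ) ^ (1 / (d : ℝ)) * (1 + K) ^ (d + 2) * (1 + Real.log N) ^ 2) N ω f a := by
  have hd1 : 1 ≤ d := by omega
  obtain ⟨E, hE0, hE⟩ := Pool.Agent.K4H43.CL.boxes_int (d := d) hd hσ hc hL
  obtain ⟨D, hD1, hD⟩ := Pool.Agent.W772.compare_tri d hd1 κ E hκ hE0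
  refine ⟨D, by linarith, ?_⟩
  intro ψ g hψ K m N hN ι _ ω f a hcaps hF p hp
  obtain ⟨hω, hsep, hcard, hf⟩ := hcaps
  have hN0 : 0 < N := by linarith
  have hne : Nonempty ι := by
    have h1 : 0 < κ * N ^ d := by positivity
    have h2 : (0 : ℝ) < (Fintype.card ι : ℝ) := by linarith
    have h3 : 0 < Fintype.card ι := by exact_mod_cast h2
    exact Fintype.card_pos_iff.1 h3
  obtain ⟨hm1, hint⟩ := hE ψ g hψ N K hN K.2 m ι ω f a hω hsep hf hF
  have hlogN : 0 ≤ Real.log N := Real.log_nonneg hN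
  have hK : (0 : ℝ) ≤ K := K.2
  have hY : (1 : ℝ) ≤ (m : ℝ) ^ (1 / (d : ℝ)) * (1 + K) ^ (d + 2) * (1 + Real.log N) ^ 2 := by
    have h1 : (1 : ℝ) ≤ (m : ℝ) ^ (1 / (d : ℝ)) :=
      Real.one_le_rpow (by exact_mod_cast hm1) (by positivity)
    have h2 : (1 : ℝ) ≤ (1 + K : ℝ) ^ (d + 2) := one_le_pow₀ (by linarith)
    have h3 : (1 : ℝ) ≤ (1 + Real.log N) ^ 2 := one_le_pow₀ (by linarith)
    calc (1 : ℝ) = 1 * 1 * 1 := by norm_num
      _ ≤ _ := by gcongr
  exact hD hN hY ω f hf _ hcard hint p hp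

/-- **The Kakeya inequality in tube form, for all `p` in `[1, ∞]`, for families with few fronts per
level, for families with few convex fronts per level, and for all families which are symmetric under
the rotations about the axis of the paraboloid** (`n = 3`: rotations and reflections). -/
theorem result (d : ℕ) (hd : 2 ≤ d) (σ κ : ℝ) (hσ : 0 < σ) (hκ : 0 < κ) :
    (∀ c L : ℝ, 0 < c → 0 < L → ∃ C : ℝ, 0 < C ∧ ∀ (ψ : Vec d → ℝ) (g : Vec d → Vec d),
      Subgradients c L ψ g → ∀ (K : ℝ≥0) (m : ℕ) (N : ℝ), 1 ≤ N → ∀ (ι : Type) [Fintype ι]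
        (ω : ι → Vec d) (f : ι → Fin d → Space d) (a : ι → Space d),
        Caps σ κ N ω f → Fronts K N m ψ g ω a →
        Ineq C ((m : ℝ) ^ (1 / (d : ℝ)) * (1 + K) ^ (d + 2) * (1 + Real.log N) ^ 2) N ω f a) ∧
    (∃ C : ℝ, 0 < C ∧ ∀ (K : ℝ≥0) (m : ℕ) (N : ℝ), 1 ≤ N → ∀ (ι : Type) [Fintype ι]
        (ω : ι → Vec d) (f : ι → Fin d → Space d) (a : ι → Space d),
        Caps σ κ N ω f → NormalFronts K N m ω a →
        Ineq C ((m : ℝ) ^ (1 / (d : ℝ)) * (1 + K) ^ (d + 2) * (1 + Real.log N) ^ 2) N ω f a) ∧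
    ∃ C : ℝ, 0 < C ∧ ∀ (K S : ℝ≥0) (N : ℝ), 1 ≤ N → ∀ (ι : Type) [Fintype ι]
        (ω β : ι → Vec d) (s : ι → ℝ) (f : ι → Fin d → Space d),
        Caps σ κ N ω f → (∀ i, |s i| ≤ S * N ^ 2) → Symmetric K N ω β →
        Ineq C ((1 + K + S) ^ (d + 2) * (1 + Real.log N) ^ 2) N ω f
          (fun i => centre (ω i) (β i) (s i)) := by
  obtain ⟨g₀, hg₀, hg₁⟩ := Pool.Agent.K4H43.CL.norm_sub_field (d := d) hd
  obtain ⟨C, hC0, hC⟩ := general (d := d) hd hσ hκ (c := 1) (L := 1) one_pos one_pos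
  refine ⟨fun c L hc hL => general hd hσ hκ hc hL, ⟨C, hC0, ?_⟩, ⟨C * 2 ^ (d + 2), by positivity, ?_⟩⟩
  · intro K m N hN ι _ ω f a hcaps hF
    exact hC (fun v => ‖v‖) g₀ hg₀ K m N hN ι ω f a hcaps
      (Pool.Agent.K4H43.CL.NormalFronts.fronts hF hg₁)
  · intro K S N hN ι _ ω β s f hcaps hs hsym p hp
    have hK : (0 : ℝ) ≤ K := K.2
    have hS : (0 : ℝ) ≤ S := S.2
    have hF := Pool.Agent.K4H43.CL.symm_fronts hd hN hK hS ω β s hs hsym g₀
    have h1 := hC (fun v => ‖v‖) g₀ hg₀ (1 + 2 * K + 2 * S) 1 N hN ι ω f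
      (fun i => centre (ω i) (β i) (s i)) hcaps hF p hp
    refine h1.trans (mul_le_mul' (ENNReal.ofReal_le_ofReal ?_) le_rfl)
    rw [Nat.cast_one, Real.one_rpow, one_mul]
    push_cast
    set θ : ℝ := min ((d : ℝ) * (1 - 1 / p.toReal)) (1 / p.toReal) with hθ
    have hlogN : 0 ≤ Real.log N := Real.log_nonneg hN
    rcases eq_or_ne p ∞ with hpt | hpt
    · have h0 : θ = 0 := by rw [hθ, hpt]; simp
      rw [h0, Real.rpow_zero, Real.rpow_zero, mul_one, mul_one]
      have : (1 : ℝ) ≤ 2 ^ (d + 2) := one_le_pow₀ (by norm_num)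
      nlinarith
    · have hr1 : 1 ≤ p.toReal := by
        rw [← ENNReal.toReal_one]
        exact ENNReal.toReal_mono hpt hp
      have hθ0 : 0 ≤ θ := by
        apply le_min
        · apply mul_nonneg (Nat.cast_nonneg d)
          rw [sub_nonneg, div_le_one (by linarith)]
          exact hr1
        · positivity
      have hθ1 : θ ≤ 1 := by
        refine (min_le_right _ _).trans ?_
        rw [div_le_one (by linarith)]
        exact hr1
      have h2 : (1 + (1 + 2 * (K : ℝ) + 2 * S)) ^ (d + 2) * (1 + Real.log N) ^ 2 ≤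
          2 ^ (d + 2) * ((1 + K + S) ^ (d + 2) * (1 + Real.log N) ^ 2) := by
        rw [← mul_assoc, ← mul_pow]
        have : 1 + (1 + 2 * (K : ℝ) + 2 * S) = 2 * (1 + K + S) := by ring
        rw [this]
      calc C * ((1 + (1 + 2 * (K : ℝ) + 2 * S)) ^ (d + 2) * (1 + Real.log N) ^ 2) ^ θ
          ≤ C * (2 ^ (d + 2) * ((1 + K + S) ^ (d + 2) * (1 + Real.log N) ^ 2)) ^ θ := by
            apply mul_le_mul_of_nonneg_left _ hC0.le
            exact Real.rpow_le_rpow (by positivity) h2 hθ0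
        _ = C * ((2 ^ (d + 2)) ^ θ * ((1 + K + S) ^ (d + 2) * (1 + Real.log N) ^ 2) ^ θ) := by
            rw [Real.mul_rpow (by positivity) (by positivity)]
        _ ≤ C * (2 ^ (d + 2) * ((1 + K + S) ^ (d + 2) * (1 + Real.log N) ^ 2) ^ θ) := by
            have h3 : ((2 : ℝ) ^ (d + 2)) ^ θ ≤ 2 ^ (d + 2) := by
              calc ((2 : ℝ) ^ (d + 2)) ^ θ ≤ ((2 : ℝ) ^ (d + 2)) ^ (1 : ℝ) :=
                    Real.rpow_le_rpow_of_exponent_le (one_le_pow₀ (by norm_num)) hθ1
                _ = 2 ^ (d + 2) := Real.rpow_one _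
            gcongr
        _ = _ := by ring

end Pool.Agent.Results.MP_ac5134_an.ConvexFronts
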