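import Pool.Agent.K4H46.MC.Lv
import Pool.Agent.K4H46.MC.Mr

set_option autoImplicit false
set_option maxHeartbeats 1000000

/-!
# MP_ac5134: all translates, against weights unimodal about moving centres in `n - 2` directions

Work in `ℝ^n = ℝ^d × ℝ`, `d = m + 1`, `n = m + 2 ≥ 2`, with its Euclidean norm (`Space d`), and let `P` be
the paraboloid `{(ω, |ω|²)}`, `|ω| ≤ 1`.  The box dual to the cap at `ω` is `box N (nor ω) f 0`: its long
side `N²` is in the direction of the unit normal `nor ω = (-2ω, 1)/√(1+4|ω|²)` and its other sides `N`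
are in the directions of an arbitrary orthonormal frame `f` of the orthogonal complement.

The translates are ARBITRARY.  Write `F = ∑ T_θ` and `F_0 = ∑ T_{θ,0}`.  Let `e` be any orthonormal
frame of `ℝ^d`, and give the point `y e_0 + ∑ u_j e_{j+1}` at the height `t` the coordinates `(u, y, t)`,
`u ∈ ℝ^m`, `m = n - 2`.

1. *Test functions.*  By duality Q1 says that `∫ F W ≤ C_ε N^ε ‖F_0‖_p ‖W‖_{p'}` for all `W ≥ 0`.  This is
   proved, with the constant `C (1 + log N)^(n-1)` and for all `p' ∈ [1, ∞)`, for all measurable `W ≥ 0`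
   such that for all `(y, t)` the function `W(·, y, t)` on `ℝ^(n-2)` is nonincreasing away from a centre
   `c(t)` in the coordinate directions.  The centre is any measurable function of `t`, and the
   dependence on the two variables `(y, t)` is arbitrary.  For `n = 2` these are all the weights.
2. *Central Morrey norms.*  For all measurable `c` and all `1 < p < ∞`, with `|R|^(1/p-1) ∫_R g ≤ ‖g‖_p`,
   `(∫∫ sup_ρ (|R|^(1/p-1) ∫_R F(u, y, t) du)^p dy dt)^(1/p) ≤ C (1 + log N)^(n-1) ‖F_0‖_p`,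
   the supremum over all rectangles `R = R(c(t), ρ)` of `ℝ^(n-2)` with the centre `c(t)`.
   The inequality of Q1 would be the same statement with the `L^p` norm in `u` in place of the supremum.
3. *The inequality of Q1* for all `p ∈ [1, ∞]`, with the constant
   `C (1 + log N)^(2n-2) (K^(n-1) M)^(1/n)`, for all translates such that every set `{F > t}`, `t ∈ ℕ`,
   is covered by `K` measurable sets with the property in 1 whose volumes add up to at most
   `M |{F > t}|`; the frames, the centres and the sets depend on the level.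
-/

open MeasureTheory Set ENNReal

namespace Pool.Agent.Results.MP_ac5134_an.MovingCentres

open Pool.Agent.H810R3.Tub

/-- The caps have centres `ω i` in the closed unit ball, `σ/N`-separated and at least `κ N^d` in
number, and `f i` is an orthonormal frame of the orthogonal complement of the normal at `ω i`. -/
def Caps {d : ℕ} {ι : Type} [Fintype ι] (σ κ N : ℝ) (ω : ι → Vec d) (f : ι → Fin d → Space d) : Prop :=
  (∀ i, ‖ω i‖ ≤ 1) ∧ (∀ i j, i ≠ j → σ / N ≤ ‖ω i - ω j‖) ∧ κ * N ^ d ≤ (Fintype.card ι : ℝ) ∧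
    ∀ i, Orthonormal ℝ (Fin.cons (nor (ω i)) (f i) : Fin (d + 1) → Space d)

/-- The sum of the indicators of the boxes of the caps with centres `a i`. -/
noncomputable def boxSum {d : ℕ} {ι : Type} [Fintype ι] (N : ℝ) (ω : ι → Vec d)
    (f : ι → Fin d → Space d) (a : ι → Space d) (y : Space d) : ℝ :=
  ∑ i, (box N (nor (ω i)) (f i) (a i)).indicator (fun _ => (1 : ℝ)) y

/-- The inequality of Q1 with constant `C`, for all exponents, for the boxes with centres `a i`. -/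
def Ineq {d : ℕ} {ι : Type} [Fintype ι] (C N : ℝ) (ω : ι → Vec d) (f : ι → Fin d → Space d)
    (a : ι → Space d) : Prop :=
  ∀ p : ℝ≥0∞, 1 ≤ p → eLpNorm (boxSum N ω f a) p volume ≤
    ENNReal.ofReal C * eLpNorm (boxSum N ω f 0) p volume

/-- The point `(u, y, t)`: `y` is the coordinate in the direction `e 0`, the `u j` are the coordinates
in the other directions of the frame, and `t` is the last coordinate of `ℝ^n`. -/
noncomputable def point {m : ℕ} (e : OrthonormalBasis (Fin (m + 1)) ℝ (Vec (m + 1)))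
    (u : Fin m → ℝ) (y t : ℝ) : Space (m + 1) :=
  WithLp.toLp 2 (y • e 0 + ∑ j, u j • e j.succ, t)

/-- `W(·, y, t)` is nonincreasing away from the centre `c t`, for all `y` and `t`: if every `u j` is
between `c t j` and `v j`, then `W (v, y, t) ≤ W (u, y, t)`. -/
def Unimodal {m : ℕ} (e : OrthonormalBasis (Fin (m + 1)) ℝ (Vec (m + 1))) (c : ℝ → Fin m → ℝ)
    (W : Space (m + 1) → ℝ≥0∞) : Prop :=
  ∀ (y t : ℝ) (u v : Fin m → ℝ), (∀ j, u j ∈ uIcc (c t j) (v j)) →
    W (point e v y t) ≤ W (point e u y t)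

/-- The dual form of the inequality against all unimodal weights, for all the exponents `r = p'` in
`[1, ∞)`. -/
def TestIneq {m : ℕ} {ι : Type} [Fintype ι] (C N : ℝ) (ω : ι → Vec (m + 1))
    (f : ι → Fin (m + 1) → Space (m + 1)) (a : ι → Space (m + 1)) : Prop :=
  ∀ (e : OrthonormalBasis (Fin (m + 1)) ℝ (Vec (m + 1))) (c : ℝ → Fin m → ℝ)
    (W : Space (m + 1) → ℝ≥0∞), Measurable c → Measurable W → Unimodal e c W →
    ∀ (p : ℝ≥0∞) (r : ℝ), 1 ≤ r → p⁻¹ + (ENNReal.ofReal r)⁻¹ = 1 →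
      ∫⁻ y, ENNReal.ofReal (boxSum N ω f a y) * W y ≤
        ENNReal.ofReal C * eLpNorm (boxSum N ω f 0) p volume * (∫⁻ y, W y ^ r) ^ (1 / r)

/-- The rectangle of `ℝ^m` with the centre `c` and the half sides `ρ j`. -/
def rectangle {m : ℕ} (c ρ : Fin m → ℝ) : Set (Fin m → ℝ) := {u | ∀ j, |u j - c j| ≤ ρ j}

/-- The central Morrey norm: the supremum of `|R|^(1/p - 1) ∫_R g` over all rectangles with the
centre `c`. -/
noncomputable def centralNorm {m : ℕ} (p : ℝ) (c : Fin m → ℝ) (g : (Fin m → ℝ) → ℝ≥0∞) : ℝ≥0∞ :=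
  ⨆ (ρ : Fin m → ℝ) (_ : ∀ j, 0 < ρ j),
    volume (rectangle c ρ) ^ (1 / p - 1) * ∫⁻ u in rectangle c ρ, g u

/-- The inequality with the `L^p` norm in `(y, t)` of the central Morrey norm with the centre `c t` in
`u`, for all frames, all measurable `c` and all `1 < p < ∞`. -/
def CentralIneq {m : ℕ} {ι : Type} [Fintype ι] (C N : ℝ) (ω : ι → Vec (m + 1))
    (f : ι → Fin (m + 1) → Space (m + 1)) (a : ι → Space (m + 1)) : Prop :=
  ∀ (e : OrthonormalBasis (Fin (m + 1)) ℝ (Vec (m + 1))) (c : ℝ → Fin m → ℝ) (p : ℝ),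
    Measurable c → 1 < p →
    (∫⁻ z : ℝ × ℝ, centralNorm p (c z.2)
      (fun u => ENNReal.ofReal (boxSum N ω f a (point e u z.1 z.2))) ^ p) ^ (1 / p) ≤
      ENNReal.ofReal C * eLpNorm (boxSum N ω f 0) (ENNReal.ofReal p) volume

/-- The measurable sets whose indicators are unimodal for some frame and some measurable centres. -/
def UnimodalSet {m : ℕ} (S : Set (Space (m + 1))) : Prop :=
  MeasurableSet S ∧ ∃ (e : OrthonormalBasis (Fin (m + 1)) ℝ (Vec (m + 1))) (c : ℝ → Fin m → ℝ),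
    Measurable c ∧ ∀ (y t : ℝ) (u v : Fin m → ℝ), (∀ j, u j ∈ uIcc (c t j) (v j)) →
      point e v y t ∈ S → point e u y t ∈ S

/-- `A` is covered by `K` unimodal sets whose volumes add up to at most `b`. -/
def Cover {m : ℕ} (K : ℕ) (b : ℝ≥0∞) (A : Set (Space (m + 1))) : Prop :=
  ∃ S : Fin K → Set (Space (m + 1)), (∀ l, UnimodalSet (S l)) ∧ A ⊆ ⋃ l, S l ∧
    ∑ l, volume (S l) ≤ b

open Pool.Agent.K4H46.US (pt)
open Pool.Agent.K4H46.MC (Unim UnimV UniSet Cv mk mk_mp mk_k0 mk_succ Bc cn c6 c6_props allV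
  moment_bound morrey)

theorem point_eq {m : ℕ} (e : OrthonormalBasis (Fin (m + 1)) ℝ (Vec (m + 1))) (u : Fin m → ℝ)
    (y t : ℝ) : point e u y t = pt (mk e 0 (y, u)) t := by
  have h : y • e 0 + ∑ j, u j • e j.succ = mk e 0 (y, u) := by
    unfold mk
    rw [← e.sum_repr_symm, Fin.sum_univ_succ]
    rfl
  unfold point pt
  rw [h]

theorem mk_surj {m : ℕ} (e : OrthonormalBasis (Fin (m + 1)) ℝ (Vec (m + 1))) (x : Vec (m + 1)) :
    mk e 0 (e.repr x 0, fun j => e.repr x j.succ) = x := by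
  apply e.repr.injective
  ext k
  refine Fin.cases ?_ (fun j => ?_) k
  · rw [mk_k0]
  · have := mk_succ e 0 (e.repr x 0, fun j => e.repr x j.succ) j
    simpa using this

theorem unim_of {m : ℕ} {e : OrthonormalBasis (Fin (m + 1)) ℝ (Vec (m + 1))} {c : ℝ → Fin m → ℝ}
    {W : Space (m + 1) → ℝ≥0∞} (h : Unimodal e c W) :
    UnimV e 0 (fun t => mk e 0 (0, c t)) W := by
  intro t x y h0 hxy
  rw [← mk_surj e x, ← mk_surj e y, ← point_eq, ← point_eq, h0]
  refine h _ t _ _ fun j => ?_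
  have h1 := hxy j.succ (Fin.succ_ne_zero j)
  have h2 := mk_succ e 0 (0, c t) j
  rw [Fin.zero_succAbove] at h2
  rwa [h2] at h1

theorem of_unim {m : ℕ} {e : OrthonormalBasis (Fin (m + 1)) ℝ (Vec (m + 1))} {c : ℝ → Fin m → ℝ}
    {W : Space (m + 1) → ℝ≥0∞} (h : Unim e 0 c W) : Unimodal e c W := by
  intro y t u v huv
  rw [point_eq, point_eq]
  refine h t _ _ (by rw [mk_k0, mk_k0]) fun j => ?_
  rw [mk_succ, mk_succ]
  exact huv j

theorem cmeas {m : ℕ} (e : OrthonormalBasis (Fin (m + 1)) ℝ (Vec (m + 1))) {c : ℝ → Fin m → ℝ}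
    (hc : Measurable c) : Measurable fun t => mk e 0 (0, c t) :=
  (mk_mp e 0).measurable.comp (measurable_const.prodMk hc)

theorem cv_of {m K : ℕ} {b : ℝ≥0∞} {A : Set (Space (m + 1))} (h : Cover K b A) : Cv K b A := by
  obtain ⟨S, hS, hA, hv⟩ := h
  refine ⟨S, fun l => ?_, hA, hv⟩
  obtain ⟨hSm, e, c, hc, hu⟩ := hS l
  refine ⟨hSm, e, 0, fun t => mk e 0 (0, c t), cmeas e hc, fun t x y h0 hxy hy => ?_⟩
  rw [← mk_surj e y, ← point_eq, ← h0] at hy
  rw [← mk_surj e x, ← point_eq]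
  refine hu _ t _ _ (fun j => ?_) hy
  have h1 := hxy j.succ (Fin.succ_ne_zero j)
  have h2 := mk_succ e 0 (0, c t) j
  rw [Fin.zero_succAbove] at h2
  rwa [h2] at h1

theorem ofReal_boxSum {d : ℕ} {ι : Type} [Fintype ι] (N : ℝ) (ω : ι → Vec d)
    (f : ι → Fin d → Space d) (a : ι → Space d) (y : Space d) :
    ENNReal.ofReal (boxSum N ω f a y) = Fb N ω f a y := by
  have h0 : 0 ≤ boxSum N ω f a y :=
    Finset.sum_nonneg fun i _ => indicator_nonneg (fun _ _ => zero_le_one) _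
  rw [← Real.enorm_of_nonneg h0]
  exact enorm_sum_box N ω f a y

theorem core (d : ℕ) (hd : 1 ≤ d) (σ κ : ℝ) (hσ : 0 < σ) (hσ1 : σ ≤ 1) (hκ : 0 < κ) :
    ∃ C : ℝ, 2 ^ d * c6 d σ κ ≤ C ∧ ∀ N : ℝ, 1 ≤ N →
      ∀ (ι : Type) [Fintype ι] (ω : ι → Vec d) (f : ι → Fin d → Space d), Caps σ κ N ω f →
      ∀ a : ι → Space d, ∀ (K : ℕ) (M : ℝ), 1 ≤ K → 1 ≤ M →
          (∀ t : ℕ, Cv K (ENNReal.ofReal M * volume {y | (t : ℝ) < boxSum N ω f a y})
            {y | (t : ℝ) < boxSum N ω f a y}) →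
          Ineq (C * (1 + Real.log N) ^ (2 * d) * ((K : ℝ) ^ d * M) ^ (1 / ((d : ℝ) + 1)))
            N ω f a := by
  have hd0 : (0 : ℝ) < d := by exact_mod_cast hd
  obtain ⟨E, hE, hmom⟩ := moment_bound hd hσ hσ1
  have hw0 : 0 < wv d := wv_pos d
  set q : ℝ := ((d : ℝ) + 1) / d with hq
  have hq1 : 1 < q := by
    rw [hq, lt_div_iff₀ hd0]; linarith
  have hq1' : q - 1 = 1 / d := by
    rw [hq]; field_simp; ring
  set b : ℝ := (1 + (d : ℝ)) ^ (d + 1) * wv d with hb
  have hb0 : 0 < b := by positivity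
  set Y : ℝ := 1 + E * b ^ (1 / (d : ℝ)) + E * 2 ^ (d + 1) / wv d with hY
  have hY0 : 1 ≤ Y := by
    have h1 : 0 ≤ E * b ^ (1 / (d : ℝ)) := by positivity
    have h2 : 0 ≤ E * 2 ^ (d + 1) / wv d := by positivity
    linarith
  have hc6 := c6_props d hσ hκ
  have hc60 : 0 < c6 d σ κ := by linarith [hc6.1]
  set C : ℝ := 1 + Y / κ + 2 ^ d * c6 d σ κ with hC
  have hYκ : 0 ≤ Y / κ := by positivity
  have h2d : (1 : ℝ) ≤ 2 ^ d := one_le_pow₀ (by norm_num)
  have h2c : c6 d σ κ ≤ 2 ^ d * c6 d σ κ := by nlinarith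
  have hC1 : 1 ≤ C := by linarith [hc6.1]
  have hCc2 : c6 d σ κ ≤ C := by linarith
  have hCc3 : 2 ^ d * c6 d σ κ ≤ C := by linarith
  have hCκ : Y ≤ C * κ := by
    have h1 : Y / κ ≤ C := by linarith [hc6.1]
    rwa [div_le_iff₀ hκ] at h1
  have hCq : Y ≤ (C * κ) ^ q := by
    calc Y = Y ^ (1 : ℝ) := (Real.rpow_one _).symm
      _ ≤ Y ^ q := Real.rpow_le_rpow_of_exponent_le hY0 hq1.le
      _ ≤ (C * κ) ^ q := Real.rpow_le_rpow (by linarith) hCκ (by linarith)
  refine ⟨C, hCc3, ?_⟩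
  intro N hN ι _ ω f ⟨hω, hsep, hcard, hf⟩ a
  have hN0 : 0 < N := by linarith
  have hlN : 0 ≤ Real.log N := Real.log_nonneg hN
  have hc0 : (0 : ℝ) < (Fintype.card ι : ℝ) := lt_of_lt_of_le (by positivity) hcard
  have hne : Nonempty ι := by
    rw [← Fintype.card_pos_iff]
    exact_mod_cast hc0
  intro K M hK hM hcov p hp
  have hK1 : (1 : ℝ) ≤ K := by exact_mod_cast hK
  set l : ℝ := 1 + Real.log N with hl
  have hl1 : 1 ≤ l := by linarith
  have hl0 : 0 < l := by linarith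
  set X : ℝ := (l ^ (2 * d)) ^ (d + 1) * ((K : ℝ) ^ d * (1 * M)) with hX
  have hX1 : 1 ≤ X := by
    have h1 : 1 ≤ (l ^ (2 * d)) ^ (d + 1) := one_le_pow₀ (one_le_pow₀ hl1)
    have h2 : 1 ≤ (K : ℝ) ^ d := one_le_pow₀ hK1
    calc (1 : ℝ) = 1 * (1 * (1 * 1)) := by norm_num
      _ ≤ X := by rw [hX]; gcongr
  have hX0 : 0 < X := by linarith
  have hQi : ∫⁻ y, Fb N ω f a y ^ q ≤ ENNReal.ofReal (E * N ^ (2 * (d + 1)) * X ^ (1 / (d : ℝ))) := by
    refine (hmom N hN ι ω f hω hsep hf a K M hK (by linarith) fun t => ?_).trans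
      (ENNReal.ofReal_le_ofReal ?_)
    swap
    · have h1 : (l ^ d) ^ (2 * d + 1) ≤ (l ^ (2 * d)) ^ (d + 1) := by
        rw [← pow_mul, ← pow_mul]
        exact pow_le_pow_right₀ hl1 (by nlinarith)
      rw [← hl]
      refine mul_le_mul_of_nonneg_left (Real.rpow_le_rpow (by positivity) ?_ (by positivity))
        (by positivity)
      rw [hX]
      exact mul_le_mul_of_nonneg_right h1 (by positivity)
    have hset : {y | (t : ℝ≥0∞) < Fb N ω f a y} = {y | (t : ℝ) < boxSum N ω f a y} := by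
      ext y
      rw [Set.mem_ofPred_eq, Set.mem_ofPred_eq, ← ofReal_boxSum, ← ENNReal.ofReal_natCast,
        ENNReal.ofReal_lt_ofReal_iff_of_nonneg (Nat.cast_nonneg t)]
    rw [hset]
    exact hcov t
  have hn0 : (0 : ℝ) < (d : ℝ) + 1 := by positivity
  have hXn : X ^ (1 / ((d : ℝ) + 1)) = l ^ (2 * d) * ((K : ℝ) ^ d * M) ^ (1 / ((d : ℝ) + 1)) := by
    rw [hX, one_mul, Real.mul_rpow (by positivity) (by positivity)]
    congr 1
    rw [← Real.rpow_natCast _ (d + 1), ← Real.rpow_mul (by positivity)]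
    have e1 : ((d + 1 : ℕ) : ℝ) * (1 / ((d : ℝ) + 1)) = 1 := by
      push_cast
      field_simp
    rw [e1, Real.rpow_one]
  have hgoal : C * l ^ (2 * d) * ((K : ℝ) ^ d * M) ^ (1 / ((d : ℝ) + 1)) =
      C * X ^ (1 / ((d : ℝ) + 1)) := by
    rw [hXn]; ring
  rw [hgoal]
  set D : ℝ := C * X ^ (1 / ((d : ℝ) + 1)) with hD
  have hD1 : 1 ≤ D := by
    have h1 : 1 ≤ X ^ (1 / ((d : ℝ) + 1)) := Real.one_le_rpow hX1 (by positivity)
    calc (1 : ℝ) = 1 * 1 := by norm_num
      _ ≤ D := by rw [hD]; gcongr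
  have hC0 : 0 < C := by linarith
  have hDq : D ^ q = C ^ q * X ^ (1 / (d : ℝ)) := by
    rw [hD, Real.mul_rpow hC0.le (by positivity), ← Real.rpow_mul hX0.le]
    congr 2
    rw [hq]; field_simp
  have hCq' : (C * κ) ^ q = C ^ q * κ ^ q := Real.mul_rpow hC0.le hκ.le
  have hXd : 0 < X ^ (1 / (d : ℝ)) := by positivity
  refine compare d hN hq1 (Q := E * N ^ (2 * (d + 1)) * X ^ (1 / (d : ℝ))) (by positivity) hD1 ω f hf a
    hQi ?_ ?_ p hp
  · -- first condition
    have hNN : N ^ (2 * (d + 1)) * (N ^ (2 * (d + 1))) ^ (1 / (d : ℝ)) = (N ^ (2 * (d + 1))) ^ q := by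
      have h0 : 0 < N ^ (2 * (d + 1)) := by positivity
      have h1 : q = 1 + 1 / (d : ℝ) := by rw [← hq1']; ring
      rw [h1, Real.rpow_add h0, Real.rpow_one]
    have h1 : E * b ^ (1 / (d : ℝ)) ≤ C ^ q * κ ^ q := by
      rw [← hCq']
      refine le_trans ?_ hCq
      have h2 : 0 ≤ E * 2 ^ (d + 1) / wv d := by positivity
      linarith
    calc E * N ^ (2 * (d + 1)) * X ^ (1 / (d : ℝ)) * (b * N ^ (2 * (d + 1))) ^ (q - 1)
        = (E * b ^ (1 / (d : ℝ))) * X ^ (1 / (d : ℝ)) *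
          (N ^ (2 * (d + 1)) * (N ^ (2 * (d + 1))) ^ (1 / (d : ℝ))) := by
          rw [hq1', Real.mul_rpow hb0.le (by positivity)]
          ring
      _ ≤ (C ^ q * κ ^ q) * X ^ (1 / (d : ℝ)) * (N ^ (2 * (d + 1))) ^ q := by
          rw [hNN]
          gcongr
      _ = D ^ q * ((κ * N ^ d) * N ^ (d + 2)) ^ q := by
          have h2 : (κ * N ^ d) * N ^ (d + 2) = κ * N ^ (2 * (d + 1)) := by ring
          rw [h2, hDq, Real.mul_rpow hκ.le (by positivity)]
          ring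
      _ ≤ D ^ q * ((Fintype.card ι : ℝ) * N ^ (d + 2)) ^ q := by
          gcongr
  · -- second condition
    have h1 : E * 2 ^ (d + 1) / wv d ≤ C ^ q * κ ^ q := by
      rw [← hCq']
      refine le_trans ?_ hCq
      have h2 : 0 ≤ E * b ^ (1 / (d : ℝ)) := by positivity
      linarith
    have h2 : E ≤ (C ^ q * κ ^ q) * (wv d / 2 ^ (d + 1)) := by
      rw [div_le_iff₀ hw0] at h1
      rw [mul_div_assoc', le_div_iff₀ (by positivity)]
      exact h1
    have hNd : (N ^ d) ^ q = N ^ (d + 1) := by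
      rw [← Real.rpow_natCast, ← Real.rpow_mul hN0.le, ← Real.rpow_natCast N (d + 1)]
      congr 1
      rw [hq]; push_cast; field_simp
    calc E * N ^ (2 * (d + 1)) * X ^ (1 / (d : ℝ))
        ≤ ((C ^ q * κ ^ q) * (wv d / 2 ^ (d + 1))) * N ^ (2 * (d + 1)) * X ^ (1 / (d : ℝ)) := by
          gcongr
      _ = D ^ q * ((κ * N ^ d) ^ q * ((N / 2) ^ (d + 1) * wv d)) := by
          rw [hDq, Real.mul_rpow hκ.le (by positivity), hNd, div_pow]
          ring
      _ ≤ D ^ q * ((Fintype.card ι : ℝ) ^ q * ((N / 2) ^ (d + 1) * wv d)) := by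
          gcongr

/-- **The Kakeya inequality in tube form for all translates: against all weights which are unimodal
about moving centres in `n - 2` directions, in central Morrey norms, and for level sets covered by
unimodal sets.** -/
theorem result (m : ℕ) (σ κ : ℝ) (hσ : 0 < σ) (hσ1 : σ ≤ 1) (hκ : 0 < κ) :
    ∃ C : ℝ, 0 < C ∧ ∀ N : ℝ, 1 ≤ N →
      ∀ (ι : Type) [Fintype ι] (ω : ι → Vec (m + 1)) (f : ι → Fin (m + 1) → Space (m + 1)),
      Caps σ κ N ω f → ∀ a : ι → Space (m + 1),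
        TestIneq (C * (1 + Real.log N) ^ (m + 1)) N ω f a ∧
        CentralIneq (C * (1 + Real.log N) ^ (m + 1)) N ω f a ∧
        ∀ (K : ℕ) (M : ℝ), 1 ≤ K → 1 ≤ M →
          (∀ t : ℕ, Cover K (ENNReal.ofReal M * volume {y | (t : ℝ) < boxSum N ω f a y})
            {y | (t : ℝ) < boxSum N ω f a y}) →
          Ineq (C * (1 + Real.log N) ^ (2 * (m + 1)) *
            ((K : ℝ) ^ (m + 1) * M) ^ (1 / (((m + 1 : ℕ) : ℝ) + 1))) N ω f a := by
  obtain ⟨C, hCc, hcore⟩ := core (m + 1) (Nat.succ_pos m) σ κ hσ hσ1 hκ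
  have hc6 := c6_props (m + 1) hσ hκ
  have hc60 : 1 ≤ c6 (m + 1) σ κ := hc6.1
  have h2d : (1 : ℝ) ≤ 2 ^ (m + 1) := one_le_pow₀ (by norm_num)
  have hC1 : c6 (m + 1) σ κ ≤ C := by nlinarith
  have hC0 : 0 < C := by linarith
  refine ⟨C, hC0, ?_⟩
  intro N hN ι _ ω f hcaps a
  obtain ⟨hω, hsep, hcard, hf⟩ := hcaps
  have hN0 : 0 < N := by linarith
  have hlN : 0 ≤ Real.log N := Real.log_nonneg hN
  have htest : ∀ (e : OrthonormalBasis (Fin (m + 1)) ℝ (Vec (m + 1))) (c : ℝ → Fin m → ℝ)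
      (W : Space (m + 1) → ℝ≥0∞), Measurable c → Measurable W → Unimodal e c W →
      ∀ (p : ℝ≥0∞) (r : ℝ), 1 ≤ r → p⁻¹ + (ENNReal.ofReal r)⁻¹ = 1 → ∫⁻ y, Fb N ω f a y * W y ≤
        ENNReal.ofReal (c6 (m + 1) σ κ * (1 + Real.log N) ^ (m + 1)) *
          eLpNorm (boxSum N ω f 0) p volume * (∫⁻ y, W y ^ r) ^ (1 / r) := by
    intro e c W hc hW hWu p r hr hpr
    exact allV (Nat.succ_pos m) hN hσ hσ1 hκ hω hsep hcard hf a (cmeas e hc) hW (unim_of hWu) hr hpr
  refine ⟨?_, ?_, ?_⟩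
  · intro e c W hc hW hWu p r hr hpr
    simp_rw [ofReal_boxSum]
    refine (htest e c W hc hW hWu p r hr hpr).trans ?_
    refine mul_le_mul_left (mul_le_mul_left (ENNReal.ofReal_le_ofReal ?_) _) _
    gcongr
  · intro e c p hc hp
    have hp0 : 0 < p := by linarith
    have hp1 : 0 < p - 1 := by linarith
    have hFm : Measurable (Fb N ω f a) := Fb_measurable N ω f a
    have hr1 : 1 ≤ p / (p - 1) := by
      rw [le_div_iff₀ hp1]; linarith
    have hpr : (ENNReal.ofReal p)⁻¹ + (ENNReal.ofReal (p / (p - 1)))⁻¹ = 1 := by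
      rw [← ENNReal.ofReal_inv_of_pos hp0, ← ENNReal.ofReal_inv_of_pos (by positivity),
        ← ENNReal.ofReal_add (by positivity) (by positivity), ENNReal.ofReal_eq_one]
      field_simp
      ring
    have h := morrey hFm e 0 hp rfl (B := ENNReal.ofReal (c6 (m + 1) σ κ *
          (1 + Real.log N) ^ (m + 1)) * eLpNorm (boxSum N ω f 0) (ENNReal.ofReal p) volume) hc
        (fun W hW hWu => htest e c W hc hW (of_unim hWu) (ENNReal.ofReal p) (p / (p - 1)) hr1 hpr)
    have h2 : (∫⁻ z : ℝ × ℝ, centralNorm p (c z.2)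
        (fun u => ENNReal.ofReal (boxSum N ω f a (point e u z.1 z.2))) ^ p) =
        ∫⁻ z : ℝ × ℝ, cn p (c z.2) (fun u => Fb N ω f a (pt (mk e 0 (z.1, u)) z.2)) ^ p := by
      refine lintegral_congr fun z => ?_
      simp_rw [ofReal_boxSum, point_eq]
      rfl
    rw [h2]
    calc (∫⁻ z : ℝ × ℝ, cn p (c z.2) (fun u => Fb N ω f a (pt (mk e 0 (z.1, u)) z.2)) ^ p) ^ (1 / p)
        ≤ ((2 ^ m * (ENNReal.ofReal (c6 (m + 1) σ κ * (1 + Real.log N) ^ (m + 1)) *
          eLpNorm (boxSum N ω f 0) (ENNReal.ofReal p) volume)) ^ p) ^ (1 / p) :=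
          ENNReal.rpow_le_rpow h (by positivity)
      _ = 2 ^ m * (ENNReal.ofReal (c6 (m + 1) σ κ * (1 + Real.log N) ^ (m + 1)) *
          eLpNorm (boxSum N ω f 0) (ENNReal.ofReal p) volume) := by
          rw [← ENNReal.rpow_mul, mul_one_div_cancel hp0.ne', ENNReal.rpow_one]
      _ ≤ ENNReal.ofReal (C * (1 + Real.log N) ^ (m + 1)) *
          eLpNorm (boxSum N ω f 0) (ENNReal.ofReal p) volume := by
          rw [← mul_assoc]
          refine mul_le_mul_left ?_ _
          have e2 : (2 : ℝ≥0∞) ^ m = ENNReal.ofReal (2 ^ m) := by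
            rw [ENNReal.ofReal_pow (by norm_num)]
            norm_num
          rw [e2, ← ENNReal.ofReal_mul (by positivity)]
          refine ENNReal.ofReal_le_ofReal ?_
          rw [← mul_assoc]
          have h3 : (2 : ℝ) ^ m * c6 (m + 1) σ κ ≤ C := by
            refine le_trans ?_ hCc
            have h4 : (2 : ℝ) ^ m ≤ 2 ^ (m + 1) := pow_le_pow_right₀ (by norm_num) (by omega)
            have h5 : 0 ≤ c6 (m + 1) σ κ := by linarith
            exact mul_le_mul_of_nonneg_right h4 h5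
          gcongr
  · intro K M hK hM hcov
    exact hcore N hN ι ω f ⟨hω, hsep, hcard, hf⟩ a K M hK hM fun t => cv_of (hcov t)

end Pool.Agent.Results.MP_ac5134_an.MovingCentres
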