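import Pool.Agent.K4H66.KG.HolGen

set_option autoImplicit false

/-!
# MP_ac5134: a zero-one law for translates which follow a generic map, and the Hölder threshold

Setting of Q1 in dimension `n = d + 1` (all `d ≥ 1`): `N × ⋯ × N × N²` boxes dual to the caps of the
paraboloid, an arbitrary number `≥ κ N^d` of caps with `σ/N`-separated centres `ω i` in the unit ball,
arbitrary orthonormal frames and arbitrary centres `a i`; the inequality with the loss `β`
(`LossAll d β`) is the comparison of the `L^p` norms with the centred family for all `p` in `[1, ∞]`
with the factor `C N^(β+ε)` for every `ε > 0`, and `LossAll d 0` is the statement of Q1.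

For a CONTINUOUS map `b` from the closed unit ball of directions to `ℝ^d`, `LossOn b β` is the same
inequality only for those translates whose axes meet the hyperplane of height `0` within `K N` of
`N² b(ω i)` (with heights of the centres at most `S N²`), for all `K, S`; the starting result
`SmoothTranslates` is `LossOn b 0` for smooth `b`.

1. For all `b` in a residual (comeagre) set of the space of continuous maps with the uniform metric,
   and for all `β ≥ 0`: `LossOn b β` is EQUIVALENT to `LossAll d β`. So the optimal loss over the
   translates which follow one generic continuous map is the optimal loss over all translates, and Q1 is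
   equivalent to its special case for the translates which follow one generic continuous map.
2. The same in every Hölder class below Lipschitz: for `0 ≤ α < 1` let `Hol d α` be the (closed) set of
   all maps with `‖b x - b y‖ ≤ ‖x - y‖^α`, with the uniform metric. For all `b` in a residual set of
   `Hol d α` and all `β ≥ 0`, `LossOn b ((1-α) β)` implies `LossAll d β`; with `β = 0`: Q1 is equivalent
   to its special case for the translates which follow ONE generic `α`-Hölder map, for every `α < 1`.
3. For every function `Φ`, all continuous `b` in a residual set have arbitrarily large `N₀` such that at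
   ALL scales `N` in `[N₀, Φ(N₀)]` the inequality holds with the factor `N^ε` for all translates which
   follow `b` (unconditionally, and simultaneously for all `ε, σ, κ, K, S`, with `N₀` depending on them).
-/

open MeasureTheory Set Filter Topology ENNReal NNReal Metric

namespace Pool.Agent.Results.MP_ac5134_an.ZeroOneLaw

open Pool.Agent.H810R3.Tub Pool.Agent.K4H66.KG

/-- **Zero-one law for generic continuous and generic Hölder direction-to-position maps, and long
windows of good scales.** -/
theorem result (d : ℕ) (hd : 1 ≤ d) :
    (∀ᶠ b in residual (Maps d), ∀ β : ℝ, 0 ≤ β → (LossOn b β ↔ LossAll d β)) ∧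
    (∀ α : ℝ, 0 ≤ α → α < 1 → ∀ᶠ b in residual (Hol d α),
      (∀ β : ℝ, 0 ≤ β → LossOn b.1 ((1 - α) * β) → LossAll d β) ∧ (LossOn b.1 0 ↔ LossAll d 0)) ∧
    (∀ Φ : ℝ → ℝ, ∀ᶠ b in residual (Maps d), ∀ ε σ κ K S : ℝ, 0 < ε → 0 < σ → 0 < κ →
      ∀ R : ℝ, ∃ N₀ : ℝ, R ≤ N₀ ∧ ∀ N : ℝ, N₀ ≤ N → N ≤ Φ N₀ →
        ∀ (ι : Type) [Fintype ι] (ω : ι → Vec d) (f : ι → Fin d → Space d) (a : ι → Space d),
          Caps σ κ N ω f → Follows b K S N ω a → Ineq N (N ^ ε) ω f a) := by
  refine ⟨zero_one hd, fun α h0 h1 => ?_, windows hd⟩
  filter_upwards [zero_one_hol hd h0 h1] with b hb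
  refine ⟨hb, fun h => hb 0 le_rfl ?_, fun h => lossOn_of_all h _⟩
  rw [mul_zero]
  exact h

end Pool.Agent.Results.MP_ac5134_an.ZeroOneLaw
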